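import Pool.Agent.N490.FG.KR

/-!
# `F_4(X)` is a `k_R`-space for metrizable `X` with compact derived set
-/

set_option autoImplicit false

namespace Pool.Agent.Results.MP_b47bfe_gt.LevelFourKR

open Pool.Agent.N490.FG

universe u

/-- For every metrizable space `X` whose set of non-isolated points is compact, `F_4(X)` is a
`k_R`-space. -/
theorem result (X : Type u) [TopologicalSpace X] [TopologicalSpace.MetrizableSpace X]
    (hX : IsCompact {x : X | ¬ IsOpen ({x} : Set X)}) : IsKR (FLevel 4 X) :=
  (fu_kr X hX).2

end Pool.Agent.Results.MP_b47bfe_gt.LevelFourKR
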